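import Pool.Agent.TH701.SV

/-!
# The optimal averaged-condition-number exponent for the cost measure `n²` is `0`

For every `p ∈ (0, ∞]` one (deterministic) program solves every invertible `n × n` system
`A x = b` to high accuracy with `Õ(n² κ̄_p(A))` operations in exact arithmetic.  The model of
computation (`Prog`, `Run`) is defined in `Pool/Agent/TH701/Model.lean`.
-/

set_option autoImplicit false

noncomputable section

namespace Pool.Agent.Results.MP_2781e4_lc.ExponentZero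

open Pool.Agent.TH701 Matrix
open scoped ENNReal

/-- The `p`-averaged condition number `κ̄_p(A) = ((1/n) ∑_i (σ_i / σ_n)^p)^(1/p)`, and
`κ̄_∞(A) = σ_1 / σ_n`. -/
def kbar {n : ℕ} (p : ℝ≥0∞) (A : Matrix (Fin n) (Fin n) ℝ) : ℝ :=
  if p = ∞ then sv A 0 / sv A (n - 1)
  else ((1 / (n : ℝ)) * ∑ i : Fin n, (sv A i / sv A (n - 1)) ^ p.toReal) ^ (1 / p.toReal)

/-- a sequence of coin tosses as a list of reals `0`, `1` -/
def coins {m : ℕ} (w : Fin m → Bool) : List ℝ := List.ofFn fun i => if w i then 1 else 0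

/-- `Achievable T p`: some randomized algorithm solves every invertible `n × n` system `A x = b` to
high accuracy using `Õ(T n A * κ̄_p(A))` operations.  The input of the program consists of (a
sufficiently long list of) coin tosses, of `n`, of the accuracy `ε`, of the list of the rows of
`A`, and of `b`.  The bound for the number of operations holds for all outcomes of the coin tosses;
the output is accurate with probability at least `2/3`. -/
def Achievable (T : ∀ n : ℕ, Matrix (Fin n) (Fin n) ℝ → ℝ) (p : ℝ≥0∞) : Prop :=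
  ∃ (P : Prog (List ℝ × (ℕ × ℝ × List (List ℝ) × List ℝ)) (List ℝ)) (C : ℝ) (k : ℕ),
    ∀ (n : ℕ) (A : Matrix (Fin n) (Fin n) ℝ) (b : Fin n → ℝ) (ε : ℝ), 1 ≤ n → IsUnit A →
      0 < ε → ε < 1 → ∃ m₀ : ℕ, ∀ m, m₀ ≤ m →
        ∃ (x : (Fin m → Bool) → Fin n → ℝ) (t : (Fin m → Bool) → ℕ),
          (∀ w, Run P (coins w, (n, ε, List.ofFn fun i => List.ofFn fun j => A i j, List.ofFn b))
            (List.ofFn (x w)) (t w)) ∧
          (∀ w, (t w : ℝ) ≤ C * (T n A * kbar p A) * (1 + Real.log n + Real.log (1 / ε)) ^ k) ∧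
          (2 / 3 : ℝ) * 2 ^ m ≤ (Fintype.card {w : Fin m → Bool //
            Real.sqrt (∑ i, (x w i - (A⁻¹ *ᵥ b) i) ^ 2) ≤
              ε * Real.sqrt (∑ i, (A⁻¹ *ᵥ b) i ^ 2)} : ℝ)

/-- The infimum of the achievable exponents in `(0, ∞]`. -/
def pstar (T : ∀ n : ℕ, Matrix (Fin n) (Fin n) ℝ → ℝ) : ℝ≥0∞ := sInf {p | 0 < p ∧ Achievable T p}

theorem kbar_ge_one {n : ℕ} (hn : 1 ≤ n) (p : ℝ≥0∞) (hp : 0 < p) (A : Matrix (Fin n) (Fin n) ℝ)
    (hA : IsUnit A) : 1 ≤ kbar p A := by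
  have h0 := sv_pos hn A hA
  have hr : ∀ i : ℕ, i ≤ n - 1 → 1 ≤ sv A i / sv A (n - 1) := by
    intro i hi
    rw [one_le_div h0]
    exact sv_antitone A hi
  unfold kbar
  split_ifs with h
  · exact hr 0 (by omega)
  · have hp' : 0 < p.toReal := ENNReal.toReal_pos hp.ne' h
    apply Real.one_le_rpow _ (by positivity)
    have hn' : (0 : ℝ) < n := by exact_mod_cast hn
    rw [one_div, inv_mul_eq_div, one_le_div hn']
    calc (n : ℝ) = ∑ _i : Fin n, (1 : ℝ) := by simp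
      _ ≤ ∑ i : Fin n, (sv A i / sv A (n - 1)) ^ p.toReal := by
          apply Finset.sum_le_sum
          intro i _
          exact Real.one_le_rpow (hr i (by omega)) hp'.le

/-- `log κ ≤ log κ̄_p + (1/p) log n` -/
theorem log_kappa_le {n : ℕ} (hn : 1 ≤ n) (p : ℝ≥0∞) (hp : 0 < p) (A : Matrix (Fin n) (Fin n) ℝ)
    (hA : IsUnit A) : Real.log (sv A 0 / sv A (n - 1))
      ≤ Real.log (kbar p A) + 1 / p.toReal * Real.log n := by
  have h0 := sv_pos hn A hA
  have hn' : (0 : ℝ) < n := by exact_mod_cast hn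
  have hn1 : (1 : ℝ) ≤ n := by exact_mod_cast hn
  have hk : 1 ≤ sv A 0 / sv A (n - 1) := by
    rw [one_le_div h0]
    exact sv_antitone A (by omega)
  set κ := sv A 0 / sv A (n - 1) with hκ
  by_cases h : p = ∞
  · have : kbar p A = κ := by unfold kbar; rw [if_pos h]
    rw [this, h]
    simp
  · have hp' : 0 < p.toReal := ENNReal.toReal_pos hp.ne' h
    have h1 : kbar p A = ((1 / (n : ℝ)) * ∑ i : Fin n, (sv A i / sv A (n - 1)) ^ p.toReal)
        ^ (1 / p.toReal) := by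
      unfold kbar; rw [if_neg h]
    have h2 : (1 / (n : ℝ)) * κ ^ p.toReal ≤
        (1 / (n : ℝ)) * ∑ i : Fin n, (sv A i / sv A (n - 1)) ^ p.toReal := by
      apply mul_le_mul_of_nonneg_left _ (by positivity)
      have h3 := Finset.single_le_sum (f := fun i : Fin n => (sv A i / sv A (n - 1)) ^ p.toReal)
        (s := Finset.univ) (fun i _ => Real.rpow_nonneg (div_nonneg
          ((Matrix.toEuclideanLin A).singularValues_nonneg _) h0.le) _)
        (Finset.mem_univ (⟨0, hn⟩ : Fin n))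
      exact h3
    have hκ0 : 0 < κ := by linarith
    have h4 : 0 < (1 / (n : ℝ)) * κ ^ p.toReal := by positivity
    rw [h1, Real.log_rpow (h4.trans_le h2)]
    have h5 := Real.log_le_log h4 h2
    have hlogn : Real.log (1 / (n : ℝ)) = -Real.log n := by rw [one_div, Real.log_inv]
    rw [Real.log_mul (by positivity) (by positivity), Real.log_rpow hκ0, hlogn] at h5
    have h6 : Real.log κ = 1 / p.toReal * (-Real.log n + p.toReal * Real.log κ)
        + 1 / p.toReal * Real.log n := by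
      field_simp
      ring
    rw [h6]
    have h7 : 0 < 1 / p.toReal := by positivity
    have h8 := mul_le_mul_of_nonneg_left h5 h7.le
    linarith

theorem cube_log_le (y : ℝ) (hy : 1 ≤ y) : (1 + Real.log y) ^ 3 ≤ 27 * y := by
  have hl : 0 ≤ Real.log y := Real.log_nonneg hy
  have h1 := Real.add_one_le_exp (Real.log y / 3)
  have h2 : 1 + Real.log y ≤ 3 * Real.exp (Real.log y / 3) := by linarith
  calc (1 + Real.log y) ^ 3 ≤ (3 * Real.exp (Real.log y / 3)) ^ 3 :=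
        pow_le_pow_left₀ (by linarith) h2 3
    _ = 27 * Real.exp (Real.log y / 3) ^ 3 := by ring
    _ = 27 * y := by
        rw [← Real.exp_nat_mul]
        have : ((3 : ℕ) : ℝ) * (Real.log y / 3) = Real.log y := by push_cast; ring
        rw [this, Real.exp_log (by linarith)]

theorem achievable (p : ℝ≥0∞) (hp : 0 < p) : Achievable (fun n _ => (n : ℝ) ^ 2) p := by
  obtain ⟨P, K, hP⟩ := solver
  set a : ℝ := 1 / p.toReal with ha
  have ha0 : 0 ≤ a := by positivity
  refine ⟨Prog.seq (Prog.snd _ _) P, (8 * (K + 1)) * ((25 + 3 * a) ^ 3 * 27), 3, ?_⟩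
  intro n A b ε hn hA hε hε1
  refine ⟨0, fun m _ => ?_⟩
  have hn' : (1 : ℝ) ≤ n := by exact_mod_cast hn
  have h0 := sv_pos hn A hA
  set κ := sv A 0 / sv A (n - 1) with hκ
  have hκ1 : 1 ≤ κ := by
    rw [hκ, one_le_div h0]
    exact sv_antitone A (by omega)
  have hkb := kbar_ge_one hn p hp A hA
  have hlogκ := log_kappa_le hn p hp A hA
  rw [← hκ, ← ha] at hlogκ
  have hlogn : 0 ≤ Real.log n := Real.log_nonneg hn'
  have hlogε : 0 ≤ Real.log (1 / ε) := Real.log_nonneg (by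
    rw [le_div_iff₀ hε]; linarith)
  have hlogκ0 : 0 ≤ Real.log κ := Real.log_nonneg hκ1
  have hlogkb : 0 ≤ Real.log (kbar p A) := Real.log_nonneg hkb
  -- the sum of the absolute values of the entries
  have hS0 : 0 < ∑ i, ∑ j, |A i j| := by
    rcases (Finset.sum_nonneg fun i (_ : i ∈ Finset.univ) =>
      Finset.sum_nonneg fun j (_ : j ∈ Finset.univ) => abs_nonneg (A i j)).lt_or_eq with h | h
    · exact h
    · exfalso
      have h1 : A = 0 := by
        ext i j
        have h2 := (Finset.sum_eq_zero_iff_of_nonneg (fun i _ =>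
          Finset.sum_nonneg fun j _ => abs_nonneg (A i j))).1 h.symm i (Finset.mem_univ i)
        have h3 := (Finset.sum_eq_zero_iff_of_nonneg (fun j _ => abs_nonneg (A i j))).1 h2 j
          (Finset.mem_univ j)
        simpa using h3
      have h2 := sv_lower hn A (Pi.single ⟨0, hn⟩ 1)
      rw [h1] at hA
      have : Nonempty (Fin n) := ⟨⟨0, hn⟩⟩
      exact not_isUnit_zero hA
  have hS1 := sum_abs_le A
  set S := ∑ i, ∑ j, |A i j| with hS
  set σ := sv A (n - 1) / (2 * S) with hσ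
  have hσ0 : 0 < σ := by positivity
  have hσκ : 1 / σ ≤ 2 * (n : ℝ) ^ 2 * κ := by
    rw [hσ, hκ, one_div_div, ← mul_div_assoc]
    apply div_le_div_of_nonneg_right _ h0.le
    nlinarith
  -- the number of levels
  set Q : ℝ := 1024 * (n : ℝ) ^ 8 * κ ^ 2 / ε with hQ
  have hQ1 : 1 ≤ Q := by
    rw [hQ, le_div_iff₀ hε]
    have h1 : (1 : ℝ) ≤ (n : ℝ) ^ 8 := one_le_pow₀ hn'
    have h2 : (1 : ℝ) ≤ κ ^ 2 := one_le_pow₀ hκ1
    have h3 : (1 : ℝ) ≤ (n : ℝ) ^ 8 * κ ^ 2 := by nlinarith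
    nlinarith
  set k : ℕ := ⌈Real.logb 2 Q⌉₊ with hk
  have hQk : Q ≤ 2 ^ (k + 1) := by
    have h1 : Real.logb 2 Q ≤ k := Nat.le_ceil _
    rw [Real.logb_le_iff_le_rpow (by norm_num) (by linarith), Real.rpow_natCast] at h1
    exact h1.trans (pow_le_pow_right₀ (by norm_num) (by omega))
  have hlev : 256 * (n : ℝ) ^ 4 / (σ ^ 2 * ε) ≤ 2 ^ (k + 1) := by
    refine le_trans ?_ hQk
    have h1 : 256 * (n : ℝ) ^ 4 / (σ ^ 2 * ε) = 256 * (n : ℝ) ^ 4 * (1 / σ) ^ 2 / ε := by
      field_simp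
    rw [h1, hQ]
    apply div_le_div_of_nonneg_right _ hε.le
    have h2 : (1 / σ) ^ 2 ≤ (2 * (n : ℝ) ^ 2 * κ) ^ 2 :=
      pow_le_pow_left₀ (by positivity) hσκ 2
    calc 256 * (n : ℝ) ^ 4 * (1 / σ) ^ 2 ≤ 256 * (n : ℝ) ^ 4 * (2 * (n : ℝ) ^ 2 * κ) ^ 2 :=
          mul_le_mul_of_nonneg_left h2 (by positivity)
      _ = 1024 * (n : ℝ) ^ 8 * κ ^ 2 := by ring
  have hx0 : A *ᵥ (A⁻¹ *ᵥ b) = b := by
    rw [Matrix.mulVec_mulVec, Matrix.mul_nonsing_inv A ((Matrix.isUnit_iff_isUnit_det A).1 hA),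
      Matrix.one_mulVec]
  obtain ⟨x, t, ht, hr, hx⟩ := hP n A b (A⁻¹ *ᵥ b) ε σ k hn hε hε1.le hσ0 (fun v => by
    have h1 := sv_lower hn A v
    have h2 : σ * (2 * S) = sv A (n - 1) := by
      rw [hσ]; field_simp
    rw [h2]
    exact h1) hx0 hS0 hlev
  refine ⟨fun _ => x, fun _ => 1 + t, fun w => Run.seq (Run.snd _ _) hr, fun w => ?_, ?_⟩
  · -- cost
    set Lg := 1 + Real.log n + Real.log (1 / ε) with hLg
    have hLg1 : 1 ≤ Lg := by linarith
    have hk3 : ((k : ℝ) + 3) ≤ (25 + 3 * a) * Lg * (1 + Real.log (kbar p A)) := by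
      have h1 : (k : ℝ) < Real.logb 2 Q + 1 :=
        Nat.ceil_lt_add_one (Real.logb_nonneg (by norm_num) hQ1)
      have hlog2 : (0.69 : ℝ) < Real.log 2 := by
        have := Real.log_two_gt_d9
        linarith
      have h2 : Real.log Q = Real.log 1024 + 8 * Real.log n + 2 * Real.log κ
          + Real.log (1 / ε) := by
        rw [hQ, div_eq_mul_one_div, Real.log_mul (by positivity) (by positivity),
          Real.log_mul (by positivity) (by positivity), Real.log_mul (by norm_num) (by positivity),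
          Real.log_pow, Real.log_pow]
        push_cast
        ring
      have h3 : Real.log 1024 = 10 * Real.log 2 := by
        rw [show (1024 : ℝ) = 2 ^ 10 by norm_num, Real.log_pow]
        push_cast; ring
      have h4 : Real.logb 2 Q ≤ 10 + 12 * Real.log n + 3 * Real.log κ
          + 2 * Real.log (1 / ε) := by
        unfold Real.logb
        rw [div_le_iff₀ (by linarith), h2, h3]
        nlinarith
      have h5 : (k : ℝ) + 3 ≤ 14 + 12 * Real.log n + 3 * Real.log κ + 2 * Real.log (1 / ε) := by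
        linarith
      have h6 : (k : ℝ) + 3 ≤ (14 + 3 * a) * Lg + 3 * Real.log (kbar p A) := by
        rw [hLg]
        nlinarith
      have h7 : (14 + 3 * a) * Lg + 3 * Real.log (kbar p A)
          ≤ (25 + 3 * a) * Lg * (1 + Real.log (kbar p A)) := by
        have h8 : (25 + 3 * a) * Lg * (1 + Real.log (kbar p A)) = (25 + 3 * a) * Lg
            + (25 + 3 * a) * Lg * Real.log (kbar p A) := by ring
        rw [h8]
        have h9 : 3 * Real.log (kbar p A) ≤ (25 + 3 * a) * Lg * Real.log (kbar p A) := by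
          apply mul_le_mul_of_nonneg_right _ hlogkb
          nlinarith
        nlinarith
      exact h6.trans h7
    have hk3' : ((k : ℝ) + 3) ^ 3 ≤ (25 + 3 * a) ^ 3 * 27 * kbar p A * Lg ^ 3 := by
      calc ((k : ℝ) + 3) ^ 3 ≤ ((25 + 3 * a) * Lg * (1 + Real.log (kbar p A))) ^ 3 :=
            pow_le_pow_left₀ (by positivity) hk3 3
        _ = (25 + 3 * a) ^ 3 * Lg ^ 3 * (1 + Real.log (kbar p A)) ^ 3 := by ring
        _ ≤ (25 + 3 * a) ^ 3 * Lg ^ 3 * (27 * kbar p A) :=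
            mul_le_mul_of_nonneg_left (cube_log_le _ hkb) (by positivity)
        _ = (25 + 3 * a) ^ 3 * 27 * kbar p A * Lg ^ 3 := by ring
    have ht' : (t : ℝ) ≤ K * (((n : ℝ) + 1) ^ 2 * ((k : ℝ) + 3) ^ 3) := by exact_mod_cast ht
    have hn4 : ((n : ℝ) + 1) ^ 2 ≤ 4 * (n : ℝ) ^ 2 := by nlinarith
    have h10 : (1 : ℝ) ≤ (n : ℝ) ^ 2 * ((k : ℝ) + 3) ^ 3 := by
      have h11 : (1 : ℝ) ≤ (n : ℝ) ^ 2 := one_le_pow₀ hn'
      have h12 : (1 : ℝ) ≤ ((k : ℝ) + 3) ^ 3 := one_le_pow₀ (by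
        have : (0 : ℝ) ≤ k := Nat.cast_nonneg k
        linarith)
      nlinarith
    have hK0 : (0 : ℝ) ≤ K := Nat.cast_nonneg K
    push_cast
    calc 1 + (t : ℝ) ≤ (n : ℝ) ^ 2 * ((k : ℝ) + 3) ^ 3
          + K * (((n : ℝ) + 1) ^ 2 * ((k : ℝ) + 3) ^ 3) := add_le_add h10 ht'
      _ ≤ (n : ℝ) ^ 2 * ((k : ℝ) + 3) ^ 3 + K * ((4 * (n : ℝ) ^ 2) * ((k : ℝ) + 3) ^ 3) := by
          gcongr
      _ = (1 + 4 * K) * (n : ℝ) ^ 2 * ((k : ℝ) + 3) ^ 3 := by ring
      _ ≤ (8 * (K + 1)) * (n : ℝ) ^ 2 * ((k : ℝ) + 3) ^ 3 := by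
          gcongr
          linarith
      _ ≤ (8 * (K + 1)) * (n : ℝ) ^ 2 * ((25 + 3 * a) ^ 3 * 27 * kbar p A * Lg ^ 3) := by
          gcongr
      _ = 8 * (K + 1) * ((25 + 3 * a) ^ 3 * 27) * ((n : ℝ) ^ 2 * kbar p A) * Lg ^ 3 := by ring
  · -- probability
    have h1 : ∀ w : Fin m → Bool, Real.sqrt (∑ i, (x i - (A⁻¹ *ᵥ b) i) ^ 2) ≤
              ε * Real.sqrt (∑ i, (A⁻¹ *ᵥ b) i ^ 2) := by
      intro _
      rw [← nrm_eq_sqrt (A⁻¹ *ᵥ b)]
      have h2 : Real.sqrt (∑ i, (x i - (A⁻¹ *ᵥ b) i) ^ 2) = nrm (x - A⁻¹ *ᵥ b) := by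
        rw [nrm_eq_sqrt]; rfl
      rw [h2]
      exact hx
    have h2 : Fintype.card {w : Fin m → Bool //
            Real.sqrt (∑ i, (x i - (A⁻¹ *ᵥ b) i) ^ 2) ≤
              ε * Real.sqrt (∑ i, (A⁻¹ *ᵥ b) i ^ 2)} = 2 ^ m := by
      rw [Fintype.card_subtype, Finset.filter_true_of_mem (fun w _ => h1 w), Finset.card_univ]
      simp
    simp only
    rw [h2]
    push_cast
    have : (0 : ℝ) < 2 ^ m := by positivity
    linarith

/-- **`p*(n²) = 0`.** -/
theorem result : pstar (fun n _ => (n : ℝ) ^ 2) = 0 := by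
  unfold pstar
  rw [← nonpos_iff_eq_zero]
  apply le_of_forall_gt
  intro c hc
  obtain ⟨q, hq0, hqc⟩ := exists_between hc
  exact lt_of_le_of_lt (sInf_le ⟨hq0, achievable q hq0⟩) hqc

end Pool.Agent.Results.MP_2781e4_lc.ExponentZero
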